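import Pool.Agent.CPG.Targets
import Pool.Agent.CPW.P_CMP
import Pool.Agent.CycP.Pos

set_option autoImplicit false

/-! CM2: the composition operator; the symbol maps the disc into the disc of radius `1/2`. The
proof is that of CMC (`CPG/P_CMC.lean`). -/

namespace Pool.Agent.CPX

open Polynomial Filter Topology
open Pool.Agent.CycP Pool.Agent.CPW Pool.Agent.CPG

open Pool.Agent.CPW.CMP_ in
theorem p_CM2 (b : ℕ → ℝ) (Φ : PowerSeries ℂ) (C : ℝ) (A B : AnSpace 1 (Metric.ball 0 1) L2)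
    (T : L2 →L[ℂ] L2) (hb : ∀ n, 1 ≤ b n) (hA : IsW (fun _ => 1) A) (hB : IsW b B)
    (hT : IsT b Φ T)
    (hΦ : ∀ m, Summable (fun n => ‖PowerSeries.coeff n (Φ ^ m)‖ * b n) ∧
      ∑' n, ‖PowerSeries.coeff n (Φ ^ m)‖ * b n ≤ C * (1 / 4) ^ m)
    (hΦ1 : Summable (fun n => ‖PowerSeries.coeff n Φ‖) ∧ ∑' n, ‖PowerSeries.coeff n Φ‖ ≤ 1 / 4)
    (hBm : B.maxDomain = Metric.ball 0 1) (hAm : A.maxDomain = Metric.ball 0 1) :
    ∃ φ : B.maxDomain → A.maxDomain, (∀ w, ‖(φ w : Fin 1 → ℂ)‖ ≤ 1 / 2) ∧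
      ∀ (f : L2) (w : B.maxDomain), B.ext (T f) w = A.ext f (φ w) := by
  have hs := fun m => (hΦ m).1
  -- the value of the symbol
  have hval : ∀ z : ℂ, ‖z‖ < 1 → ‖∑' n, PowerSeries.coeff n Φ * z ^ n‖ ≤ 1 / 4 := by
    intro z hz
    have h1 : Summable fun n => ‖PowerSeries.coeff n Φ * z ^ n‖ := by
      have := summable_term hb hz (hs 1)
      simpa using this
    refine (norm_tsum_le_tsum_norm h1).trans (le_trans ?_ hΦ1.2)
    refine h1.tsum_le_tsum (fun n => ?_) hΦ1.1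
    rw [norm_mul, norm_pow]
    exact mul_le_of_le_one_right (norm_nonneg _) (pow_le_one₀ (norm_nonneg _) hz.le)
  have hz : ∀ w : Fin 1 → ℂ, w ∈ Metric.ball (0 : Fin 1 → ℂ) 1 → ‖w 0‖ < 1 := by
    intro w hw
    rw [mem_ball_zero_iff] at hw
    exact lt_of_le_of_lt (norm_le_pi_norm w 0) hw
  -- the symbol
  let φ₀ : (Fin 1 → ℂ) → (Fin 1 → ℂ) := fun w _ => 2 * ∑' n, PowerSeries.coeff n Φ * (w 0) ^ n
  have hφ : ∀ w : Fin 1 → ℂ, w ∈ Metric.ball (0 : Fin 1 → ℂ) 1 →
      φ₀ w ∈ Metric.ball (0 : Fin 1 → ℂ) 1 := by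
    intro w hw
    rw [mem_ball_zero_iff, pi_norm_lt_iff one_pos]
    intro _
    have := hval (w 0) (hz w hw)
    simp only [φ₀]
    rw [norm_mul, Complex.norm_ofNat]
    linarith
  refine ⟨fun w => ⟨φ₀ w.1, hAm.symm.subset (hφ _ (hBm.subset w.2))⟩, ?_, ?_⟩
  · rintro ⟨w, hw⟩
    rw [hBm] at hw
    change ‖φ₀ w‖ ≤ 1 / 2
    rw [pi_norm_le_iff_of_nonneg (by norm_num)]
    intro _
    have := hval (w 0) (hz w hw)
    simp only [φ₀]
    rw [norm_mul, Complex.norm_ofNat]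
    linarith
  rintro f ⟨w, hw⟩
  rw [hBm] at hw
  simp only
  rw [B.ext_of_mem hw, A.ext_of_mem (hφ w hw)]
  set z : ℂ := w 0 with hzd
  have hz1 : ‖z‖ < 1 := hz w hw
  -- the double series
  let F : ℕ → ℕ → ℂ := fun n m => f m * PowerSeries.coeff n ((2 * Φ) ^ m) * z ^ n
  have hF : Summable (Function.uncurry F) := by
    have hG : Summable fun p : ℕ × ℕ =>
        ‖f‖ * (2 ^ p.1 * (‖PowerSeries.coeff p.2 (Φ ^ p.1)‖ * b p.2)) := by
      refine (summable_prod_of_nonneg ?_).2 ⟨?_, ?_⟩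
      · intro p
        have : 0 ≤ b p.2 := zero_le_one.trans (hb _)
        change (0 : ℝ) ≤ _
        positivity
      · intro m
        exact ((hs m).mul_left (2 ^ m)).mul_left ‖f‖
      · simp only [tsum_mul_left]
        refine Summable.of_nonneg_of_le (fun m => ?_) (fun m => ?_)
          ((summable_geometric_of_lt_one (by norm_num : (0 : ℝ) ≤ 1 / 2)
            (by norm_num)).mul_left (‖f‖ * C))
        · have : 0 ≤ ∑' n, ‖PowerSeries.coeff n (Φ ^ m)‖ * b n :=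
            tsum_nonneg fun n => mul_nonneg (norm_nonneg _) (zero_le_one.trans (hb n))
          positivity
        · rw [mul_assoc]
          refine mul_le_mul_of_nonneg_left ?_ (norm_nonneg _)
          calc (2 : ℝ) ^ m * ∑' n, ‖PowerSeries.coeff n (Φ ^ m)‖ * b n
              ≤ 2 ^ m * (C * (1 / 4) ^ m) := mul_le_mul_of_nonneg_left (hΦ m).2 (by positivity)
            _ = C * (2 * (1 / 4)) ^ m := by rw [mul_pow]; ring
            _ = C * (1 / 2) ^ m := by norm_num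
    have hG' := (Equiv.prodComm ℕ ℕ).summable_iff.2 hG
    refine Summable.of_norm_bounded hG' ?_
    rintro ⟨n, m⟩
    simp only [Function.uncurry_apply_pair, Function.comp_apply, Equiv.prodComm_apply,
      Prod.swap_prod_mk, F]
    rw [mul_assoc, norm_mul]
    refine mul_le_mul (lp.norm_apply_le_norm (by norm_num) f m) ?_ (norm_nonneg _)
      (norm_nonneg _)
    rw [two_mul_pow, mul_assoc, norm_mul, norm_pow, Complex.norm_ofNat]
    exact mul_le_mul_of_nonneg_left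
      (term_le hb hz1 (fun n => PowerSeries.coeff n (Φ ^ m)) n) (by positivity)
  have h1 : B.fn (T f) w = ∑' n, ∑' m, F n m := by
    rw [← (hB.fn (T f) w hw).tsum_eq]
    refine tsum_congr fun n => ?_
    have hbn : (b n : ℂ) ≠ 0 := by
      have : 0 < b n := zero_lt_one.trans_le (hb n)
      exact_mod_cast this.ne'
    have h2 := ((hT.hasSum f n).mul_left ((z ^ n) / (b n : ℂ))).tsum_eq
    rw [← hzd]
    calc (T f : L2) n / (b n : ℂ) * z ^ n = z ^ n / (b n : ℂ) * (T f : L2) n := by ring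
      _ = ∑' m, z ^ n / (b n : ℂ) * (f m * ((b n : ℂ) * PowerSeries.coeff n ((2 * Φ) ^ m))) :=
          h2.symm
      _ = ∑' m, F n m := by
          refine tsum_congr fun m => ?_
          simp only [F]
          field_simp
  have h3 : A.fn f (φ₀ w) = ∑' m, ∑' n, F n m := by
    rw [← (hA.fn f (φ₀ w) (hφ w hw)).tsum_eq]
    refine tsum_congr fun m => ?_
    have e1 : φ₀ w 0 = 2 * ∑' n, PowerSeries.coeff n Φ * z ^ n := rfl
    rw [e1, mul_pow, ← eval_pow hb hs hz1 m]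
    simp only [F]
    rw [← tsum_mul_left, ← tsum_mul_left]
    refine tsum_congr fun n => ?_
    rw [two_mul_pow]
    simp
    ring
  rw [h1, h3]
  exact hF.tsum_comm.symm

end Pool.Agent.CPX
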