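import Pool.Agent.CPX.Targets
import Pool.Agent.CPW.Asm

set_option autoImplicit false

/-!
# CPX, CO2: the contraction
-/

namespace Pool.Agent.CPX

open Polynomial Filter Topology
open Pool.Agent.CycP Pool.Agent.CPW

theorem CO2_pow {m : ℕ} {y : ℝ} (h : (m : ℝ) ≤ y) : (2 : ℝ) ^ m ≤ (2 : ℝ) ^ y := by
  rw [← Real.rpow_natCast]
  exact Real.rpow_le_rpow_of_exponent_le (by norm_num) h

theorem CO2_pow' {m : ℕ} {y : ℝ} (h : y ≤ (m : ℝ)) : (2 : ℝ) ^ y ≤ (2 : ℝ) ^ m := by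
  rw [← Real.rpow_natCast]
  exact Real.rpow_le_rpow_of_exponent_le (by norm_num) h

theorem p_CO2 (h1 : T_HAT) (_h2 : T_TT2) (h3 : T_RW2) : T_CO2 := by
  intro s hs2 p
  by_contra hcon
  push Not at hcon
  have hs := hs2.ok
  obtain ⟨hX1, hX2, ⟨hx0, -⟩, hX4, -, -, -, -, -, hXV, -⟩ := XFA s hs
  obtain ⟨hb0, hb1, -, -, -, hb6, -⟩ := BBB s hs
  obtain ⟨hH1, hH2, -, hH4, hH5, hH6, hH7⟩ := h1 s hs2
  have hbn : ∀ n, bb s n ≤ n := by
    intro n
    induction n with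
    | zero => rw [hb0]
    | succ n ih => exact (hb1 n).trans (by omega)
  have hex : ∀ n, ∃ K, n ≤ s.Z K := fun n => ⟨n, (hX1 n).2.1⟩
  classical
  set kap : ℕ → ℕ := fun n => Nat.find (hex n) with hkap
  have hk : ∀ n K, n ≤ s.Z K → kap n ≤ K := fun n K h => Nat.find_min' (hex n) h
  have hk2 : ∀ n, n ≤ s.Z (kap n) := fun n => Nat.find_spec (hex n)
  have hk3 : ∀ n k, s.Z k < n → n ≤ s.Z (k + 1) → kap n = k + 1 := by
    intro n k hn1 hn2
    have ha := hk n (k + 1) hn2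
    by_contra hne
    have hle : kap n ≤ k := by omega
    have hb := hk2 n
    have hc := (hX2 (kap n) k hle).1
    omega
  set w : ℕ → ℝ := fun n => (2 : ℝ) ^ (be s n) with hw
  set W : ℕ → ℝ := fun n => w (n + s.g (kap n)) / 2 ^ Up s (kap n) with hW
  have hw0 : ∀ n, 0 < w n := fun n => Real.rpow_pos_of_pos (by norm_num) _
  have hW0 : ∀ n, 0 ≤ W n := fun n => div_nonneg (hw0 _).le (by positivity)
  have hWge : ∀ (n k m : ℕ), kap n = k → ((Up s k + m : ℕ) : ℝ) ≤ be s (n + s.g k) →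
      (2 : ℝ) ^ m ≤ W n := by
    intro n k m hkn hle
    simp only [hW, hkn]
    rw [le_div_iff₀ (by positivity), ← pow_add, add_comm]
    exact CO2_pow hle
  have hA : ∀ k, 1 ≤ k → ∀ v ≤ V s k,
      (2 : ℝ) ^ (et s k + Lp s ((k - 1) / 2)) ≤ w (2 * s.g k + v) ∧
      (2 : ℝ) ^ (et s k + Lp s ((k - 1) / 2)) ≤ W (2 * s.g k + v) ∧
      ∀ l, l ≤ 2 * k → l ≠ k →
        (2 : ℝ) ^ (et s k + Lp s ((k - 1) / 2)) ≤ W (2 * s.g k + v - x s l) := by
    intro k hk1 v hv
    obtain ⟨hz2, -, hz4, -, -⟩ := hX1 k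
    have hVz : V s k ≤ s.Z k := by
      have h := hXV.2 ((k - 1) / 2)
      have hle : V s k ≤ s.Z ((k - 1) / 2) := by
        rcases Nat.even_or_odd k with he | ho
        · obtain ⟨j, hj⟩ := he
          have hkj : k = 2 * ((k - 1) / 2) + 2 := by omega
          rw [hkj]
          have e : (2 * ((k - 1) / 2) + 2 - 1) / 2 = (k - 1) / 2 := by omega
          rw [e, h.2.1]
          exact h.2.2.2.1
        · obtain ⟨j, hj⟩ := ho
          have hkj : k = 2 * ((k - 1) / 2) + 1 := by omega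
          rw [hkj]
          have e : (2 * ((k - 1) / 2) + 1 - 1) / 2 = (k - 1) / 2 := by omega
          rw [e, h.1]
      exact hle.trans (hX2 _ _ (by omega)).1
    have hzs := hs.zs k
    refine ⟨CO2_pow (hH5 k v hk1 hv), ?_, ?_⟩
    · exact hWge _ (k + 1) _ (hk3 _ k (by omega) (by omega)) (hH7 k v hk1 hv).1
    · intro l hl hlk
      have hx := (hX4 k l hl).2
      exact hWge _ (k + 1) _ (hk3 _ k (by omega) (by omega)) ((hH7 k v hk1 hv).2 l hl hlk)
  have hB : ∀ K t, 1 ≤ t → t ≤ s.Z K → (2 : ℝ) ^ Tp s K ≤ W (s.g K - t) := by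
    intro K t ht1 ht2
    obtain ⟨hz2, -, hz4, -, -⟩ := hX1 K
    have hzs := hs.zs K
    exact hWge _ (K + 1) _ (hk3 _ K (by omega) (by omega)) (hH6 K t ht1 ht2)
  have hc : ∀ n, 1 ≤ n → ‖cv s p n - p.coeff n‖ * w n ≤ 1 / 1000 := by
    intro n hn
    have h := hcon n
    rw [COE s hs, if_neg (by omega)] at h
    rwa [show (0 : ℂ) - p.coeff n + cv s p n = cv s p n - p.coeff n by ring] at h
  obtain ⟨N, hN, hmax⟩ := Finset.exists_max_image (insert 0 p.support)
    (fun n => ‖p.coeff n‖ * W n / 2 ^ (kap n + 8)) ⟨0, Finset.mem_insert_self _ _⟩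
  set M : ℝ := ‖p.coeff N‖ * W N / 2 ^ (kap N + 8) with hM
  have hM0 : 0 ≤ M := div_nonneg (mul_nonneg (norm_nonneg _) (hW0 _)) (by positivity)
  have hall : ∀ n, ‖p.coeff n‖ * W n ≤ M * 2 ^ (kap n + 8) := by
    intro n
    by_cases hn : n ∈ insert 0 p.support
    · have := hmax n hn
      rwa [div_le_iff₀ (by positivity)] at this
    · have : p.coeff n = 0 := by
        by_contra h
        exact hn (Finset.mem_insert_of_mem (Polynomial.mem_support_iff.2 h))
      rw [this, norm_zero, zero_mul]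
      positivity
  have hWup : W N ≤ 2 ^ s.Z (kap N) := by
    have hbe : be s (N + s.g (kap N)) ≤ ((N + Up s (kap N) : ℕ) : ℝ) := by
      refine (hH2 _).trans ?_
      rw [hb6 (kap N) N (hk2 N)]
      exact_mod_cast Nat.add_le_add_right (hbn N) _
    have hle : w (N + s.g (kap N)) ≤ 2 ^ N * 2 ^ Up s (kap N) := by
      rw [← pow_add]
      exact CO2_pow' hbe
    simp only [hW]
    rw [div_le_iff₀ (by positivity)]
    refine hle.trans (mul_le_mul_of_nonneg_right ?_ (by positivity))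
    exact pow_le_pow_right₀ (by norm_num) (hk2 N)
  have hWeq : (2 : ℝ) ^ Up s (kap N) * W N ≤ w (N + s.g (kap N)) := by
    simp only [hW]
    rw [mul_div_cancel₀]
    positivity
  have hR := h3 s hs w W hA hB kap p (1 / 1000) M (by norm_num) hM0 hk hc hall (kap N) N (hk2 N)
    (hW0 N) hWup hWeq
  have hM2 : M ≤ 1 / 1000 + M / 2 := by
    rw [hM, div_le_iff₀ (by positivity)]
    exact hR
  have hk0 : kap 0 = 0 := Nat.le_zero.1 (hk 0 0 (Nat.zero_le _))
  have hW1 : 1 ≤ W 0 := by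
    have h := hWge 0 0 0 hk0 (by simpa using hH4 0 0 (Nat.zero_le _))
    simpa using h
  have hp0 := hall 0
  rw [hk0] at hp0
  have hp1 : ‖p.coeff 0‖ ≤ M * 2 ^ (0 + 8) :=
    (le_mul_of_one_le_right (norm_nonneg _) hW1).trans hp0
  have hcv : cv s p 0 = 0 := by
    unfold cv
    rw [Finset.sum_range_one, hx0]
    simp
  have he := hcon 0
  rw [COE s hs, hcv, if_pos rfl] at he
  have hbe0 : be s 0 = 0 := rfl
  rw [hbe0] at he
  have htri : ‖(1 : ℂ)‖ ≤ ‖1 - p.coeff 0 + 0‖ + ‖p.coeff 0‖ := by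
    calc ‖(1 : ℂ)‖ = ‖(1 - p.coeff 0 + 0) + p.coeff 0‖ := by congr 1; ring
      _ ≤ _ := norm_add_le _ _
  rw [norm_one] at htri
  norm_num at hp1 he
  rw [add_zero] at htri
  linarith

end Pool.Agent.CPX
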