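import Pool.Agent.CPX.Targets
import Pool.Agent.CPW.Asm

set_option autoImplicit false

/-! CPX-HAT: facts on the regularised exponent. -/

namespace Pool.Agent.CPX

open Polynomial Filter Topology
open Pool.Agent.CycP Pool.Agent.CPW

namespace HAT_

lemma zi_eq {s : Sq} (hs : Ok s) {k n : ℕ} (h1 : s.Z k ≤ n) (h2 : n < s.Z (k + 1)) :
    zi s n = k := by
  obtain ⟨ha, hb, -⟩ := XFA s hs
  unfold zi
  rw [Nat.findGreatest_eq_iff]
  refine ⟨(ha k).2.1.trans h1, fun _ => h1, ?_⟩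
  intro m hm _ hZ
  have := (hb (k + 1) m hm).1
  omega

lemma nonneg (s : Sq) (n : ℕ) : 0 ≤ be s n := by
  induction n with
  | zero => unfold be; exact le_rfl
  | succ n ih =>
    unfold be
    exact le_min (Nat.cast_nonneg _) (by positivity)

lemma le_bb (s : Sq) (n : ℕ) : be s n ≤ bb s n := by
  cases n with
  | zero => unfold be; exact Nat.cast_nonneg _
  | succ n => unfold be; exact min_le_left _ _

lemma step (s : Sq) (n : ℕ) : be s (n + 1) ≤ be s n + 1 / ((zi s (n + 1) : ℝ) + 1) := by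
  conv_lhs => unfold be
  exact min_le_right _ _

lemma be_succ (s : Sq) (n : ℕ) : be s (n + 1) =
    min (bb s (n + 1) : ℝ) (be s n + 1 / ((zi s (n + 1) : ℝ) + 1)) := by
  conv_lhs => unfold be

/-- the first zone -/
lemma zone (h1 : T_ZON) {s : Sq} (hs : Ok2 s) (k : ℕ) :
    (∀ t, 1 ≤ t → t ≤ s.Z k → (Tp s k : ℝ) ≤ be s (s.g k - t)) ∧
    (1 ≤ k → ∀ v ≤ V s k,
      ((et s k + Lp s ((k - 1) / 2) : ℕ) : ℝ) ≤ be s (2 * s.g k + v)) := by
  obtain ⟨-, h2, h3⟩ := h1 s hs k 0 (be s) (nonneg s _) (by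
    intro n hn hn1
    rw [be_succ, zi_eq hs.ok (k := k) (by omega) hn1, zero_add]
    refine min_le_min_left _ ?_
    have : (1 : ℝ) / ((k : ℝ) + 2) ≤ 1 / ((k : ℝ) + 1) := by
      apply one_div_le_one_div_of_le
      · positivity
      · linarith
    linarith)
  refine ⟨fun t ht ht' => ?_, fun hk v hv => ?_⟩
  · have := h2 t ht ht'
    rwa [zero_add] at this
  · have := (h3 hk v hv).1
    rwa [zero_add] at this

lemma up (h1 : T_ZON) {s : Sq} (hs : Ok2 s) (K N : ℕ) (hN : N ≤ s.Z K) :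
    (Up s K : ℝ) ≤ be s (N + s.g K) := by
  obtain ⟨ha, -⟩ := XFA s hs.ok
  obtain ⟨-, -, -, -, -, hbb, -⟩ := BBB s hs.ok
  have hz := ha K
  induction N with
  | zero =>
    obtain ⟨m, hm⟩ : ∃ m, s.g K = m + 1 := ⟨s.g K - 1, by omega⟩
    have g1 := (zone h1 hs K).1 1 le_rfl (by omega)
    have g2 := hbb K 0 (by omega)
    rw [zero_add] at g2 ⊢
    rw [hm] at g1 g2 ⊢
    rw [Nat.add_sub_cancel] at g1
    rw [be_succ]
    refine le_min ?_ ?_
    · rw [g2]
      exact_mod_cast Nat.le_add_left _ _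
    · have g3 : (Up s K : ℝ) ≤ Tp s K := by
        have : Up s K ≤ Tp s K := by unfold Up Tp; omega
        exact_mod_cast this
      have g4 : (0 : ℝ) ≤ 1 / ((zi s (m + 1) : ℝ) + 1) := by positivity
      linarith
  | succ N ih =>
    have g1 := ih (by omega)
    have g2 := hbb K (N + 1) hN
    have e : N + 1 + s.g K = N + s.g K + 1 := by ring
    rw [e] at g2 ⊢
    rw [be_succ]
    refine le_min ?_ ?_
    · rw [g2]
      exact_mod_cast Nat.le_add_left _ _
    · have g4 : (0 : ℝ) ≤ 1 / ((zi s (N + s.g K + 1) : ℝ) + 1) := by positivity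
      linarith

/-- the shifted zone -/
lemma shift (h1 : T_ZON) {s : Sq} (hs : Ok2 s) (k : ℕ) :
    (∀ t, 1 ≤ t → t ≤ s.Z k →
      (Up s (k + 1) : ℝ) + Tp s k ≤ be s (s.g k - t + s.g (k + 1))) ∧
    (1 ≤ k → ∀ v ≤ V s k,
      (Up s (k + 1) : ℝ) + ((et s k + Lp s ((k - 1) / 2) : ℕ) : ℝ) ≤
        be s (2 * s.g k + v + s.g (k + 1)) ∧
      ∀ l, l ≤ 2 * k → l ≠ k →
        (Up s (k + 1) : ℝ) + ((et s k + Lp s ((k - 1) / 2) : ℕ) : ℝ) ≤
          be s (2 * s.g k + v - x s l + s.g (k + 1))) := by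
  obtain ⟨ha, hb, -⟩ := XFA s hs.ok
  obtain ⟨-, -, -, -, -, hbb, -⟩ := BBB s hs.ok
  have hz := ha (k + 1)
  have hzz := ha k
  have hzs := hs.ok.zs (k + 1)
  obtain ⟨-, h2, h3⟩ := h1 s hs k (Up s (k + 1)) (fun n => be s (n + s.g (k + 1)))
    (up h1 hs (k + 1) (s.Z k) (by omega)) (by
    intro n hn hn1
    have e : n + 1 + s.g (k + 1) = n + s.g (k + 1) + 1 := by ring
    have g2 := hbb (k + 1) (n + 1) (by omega)
    show min _ (be s (n + s.g (k + 1)) + _) ≤ be s (n + 1 + s.g (k + 1))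
    rw [e] at g2 ⊢
    rw [be_succ, zi_eq hs.ok (k := k + 1) (by omega) (by omega), g2]
    push_cast
    refine le_min ?_ ?_
    · refine (min_le_left _ _).trans (le_of_eq ?_)
      ring
    · refine (min_le_right _ _).trans (le_of_eq ?_)
      ring)
  exact ⟨h2, h3⟩

end HAT_

theorem p_HAT (h1 : T_ZON) : T_HAT := by
  intro s hs
  refine ⟨HAT_.nonneg s, HAT_.le_bb s, HAT_.step s, fun K N hN => HAT_.up h1 hs K N hN,
    fun k v hk hv => (HAT_.zone h1 hs k).2 hk v hv, ?_, ?_⟩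
  · intro k t ht ht'
    have := (HAT_.shift h1 hs k).1 t ht ht'
    push_cast
    exact this
  · intro k v hk hv
    obtain ⟨g1, g2⟩ := (HAT_.shift h1 hs k).2 hk v hv
    refine ⟨?_, fun l hl hlk => ?_⟩
    · push_cast at g1 ⊢
      exact g1
    · have := g2 l hl hlk
      push_cast at this ⊢
      exact this

end Pool.Agent.CPX
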