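import Pool.Agent.CPX.Targets

set_option autoImplicit false

/-!
# CPX, target SE2: sequences with long gaps by recursion
-/

namespace Pool.Agent.CPX

open Polynomial Filter Topology
open Pool.Agent.CycP Pool.Agent.CPW

namespace SE2_

/-- `Y K` as a function of `K` and `Z K` -/
def Yf (N : ℕ → ℕ) (J K z : ℕ) : ℕ :=
  max ((5 * z + 9 * K + 70) * z) (N (5 * z + 8 * K + 63)) + J + 1

/-- `g K` as a function of `K` and `Z K` -/
def Gf (N : ℕ → ℕ) (J K z : ℕ) : ℕ :=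
  (Yf N J K z + (4 * z + 8 * K + 60) + (3 * z + 6 * K + 47) + 4 * z) +
    (2 * K + 4) * ((4 * z + 8 * K + 60) + (z + 3) + (3 * z + 6 * K + 47))

/-- `Z K` -/
def Zf (N : ℕ → ℕ) (J : ℕ) : ℕ → ℕ
  | 0 => 2
  | K + 1 => 3 * Gf N J K (Zf N J K)

/-- the sequences -/
def S (N : ℕ → ℕ) (J : ℕ) : Sq :=
  ⟨Zf N J, fun K => Yf N J K (Zf N J K), fun K => Gf N J K (Zf N J K)⟩

end SE2_

open SE2_ in
/-- **SE2** -/
theorem p_SE2 : T_SE2 := by
  intro h hh J
  have h1 : ∀ e : ℕ, ∃ N : ℕ, ∀ n, N ≤ n → (2 : ℝ) ^ e ≤ h n := fun e => by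
    obtain ⟨N, hN⟩ := eventually_atTop.1 (hh.eventually_ge_atTop ((2 : ℝ) ^ e))
    exact ⟨N, hN⟩
  choose N hN using h1
  refine ⟨S N J, ⟨⟨rfl, fun K => rfl, fun K => ?_, fun K => ?_⟩, fun K => ?_⟩, ?_, ?_⟩
  · show (5 * Zf N J K + 9 * K + 70) * Zf N J K ≤ Yf N J K (Zf N J K)
    have h2 : (5 * Zf N J K + 9 * K + 70) * Zf N J K ≤
        max ((5 * Zf N J K + 9 * K + 70) * Zf N J K) (N (5 * Zf N J K + 8 * K + 63)) :=
      le_max_left _ _
    unfold Yf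
    omega
  · exact Nat.le_add_right _ _
  · show Yf N J K (Zf N J K) + (4 * Zf N J K + 8 * K + 60) + (3 * Zf N J K + 6 * K + 47) +
      2 * Zf N J K + (2 * K + 4) * ((4 * Zf N J K + 8 * K + 60) + (Zf N J K + 3) +
        (3 * Zf N J K + 6 * K + 47)) ≤ Gf N J K (Zf N J K)
    unfold Gf
    omega
  · show J < max ((5 * Zf N J 0 + 9 * 0 + 70) * Zf N J 0) (N (5 * Zf N J 0 + 8 * 0 + 63)) + J + 1
    omega
  · intro K n hn
    have h2 : N (5 * Zf N J K + 8 * K + 63) ≤ n := by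
      refine le_trans ?_ hn
      show N (5 * Zf N J K + 8 * K + 63) ≤ Yf N J K (Zf N J K)
      have h3 : N (5 * Zf N J K + 8 * K + 63) ≤
          max ((5 * Zf N J K + 9 * K + 70) * Zf N J K) (N (5 * Zf N J K + 8 * K + 63)) :=
        le_max_right _ _
      unfold Yf
      omega
    have h3 := hN _ n h2
    have h4 : Tp (S N J) K + Up (S N J) K = 5 * Zf N J K + 8 * K + 63 := by
      show (4 * Zf N J K + 8 * K + 60) + (Zf N J K + 3) = 5 * Zf N J K + 8 * K + 63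
      omega
    rw [h4]
    exact h3

end Pool.Agent.CPX
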