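import Pool.Agent.CPX.Targets

set_option autoImplicit false

/-!
# CPX: the slopes tend to `0`
-/

namespace Pool.Agent.CPX

open Polynomial Filter Topology
open Pool.Agent.CycP Pool.Agent.CPW

namespace SLO_

theorem be_succ_le (s : Sq) (n : ℕ) :
    be s (n + 1) ≤ be s n + 1 / ((zi s (n + 1) : ℝ) + 1) := by
  rw [be]
  exact min_le_right _ _

theorem le_zi (s : Sq) {K n : ℕ} (h1 : K ≤ n) (h2 : s.Z K ≤ n) : K ≤ zi s n := by
  unfold zi
  exact Nat.le_findGreatest h1 h2

end SLO_

open SLO_ in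
theorem p_SLO : T_SLO := by
  intro s _ ρ hρ
  have hl : 0 < Real.logb 2 ρ := Real.logb_pos (by norm_num) hρ
  obtain ⟨K, hK⟩ := exists_nat_one_div_lt hl
  filter_upwards [eventually_ge_atTop (max (s.Z K) K)] with n hn
  have h1 : K ≤ zi s (n + 1) :=
    le_zi s (((le_max_right _ _).trans hn).trans (Nat.le_succ n))
      (((le_max_left _ _).trans hn).trans (Nat.le_succ n))
  have h2 : (1 : ℝ) / ((zi s (n + 1) : ℝ) + 1) ≤ 1 / ((K : ℝ) + 1) := by
    have h3 : ((K : ℝ)) ≤ (zi s (n + 1) : ℝ) := by exact_mod_cast h1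
    exact one_div_le_one_div_of_le (by positivity) (by linarith)
  have h3 : be s (n + 1) ≤ be s n + Real.logb 2 ρ := by
    have := be_succ_le s n
    linarith
  calc (2 : ℝ) ^ (be s (n + 1)) ≤ (2 : ℝ) ^ (be s n + Real.logb 2 ρ) :=
        Real.rpow_le_rpow_of_exponent_le (by norm_num) h3
    _ = ρ * (2 : ℝ) ^ (be s n) := by
        rw [Real.rpow_add (by norm_num), Real.rpow_logb (by norm_num) (by norm_num)
          (by linarith)]
        ring

end Pool.Agent.CPX
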