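import Pool.Agent.CPX.Targets
import Pool.Agent.CPW.Asm

set_option autoImplicit false

/-!
# CPX: TT2, the tree for general weights
-/

namespace Pool.Agent.CPX

open Polynomial Filter Topology
open Pool.Agent.CycP Pool.Agent.CPW

open Pool.Agent.CPW.TTT_ in
/-- the target TT2 -/
theorem p_TT2 : T_TT2 := by
  intro s hs w W hW kap p c M hc hM hk H2 H3
  obtain ⟨x1, x2, ⟨x30, x31⟩, x4, x5, x6, x7, x8, x9, ⟨x100, x10⟩, x11⟩ :=
    Pool.Agent.CPW.XFA s hs
  have hq : 0 ≤ c + M := by linarith
  have key : ∀ d k, 1 ≤ k → p.natDegree < k + d → ∀ v ≤ V s k,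
      ‖p.coeff (v + x s k)‖ ≤ (1 / 2) ^ al s k * (c + M) * (1 / 2) ^ Dp s ((k - 1) / 2) := by
    intro d
    induction d with
    | zero =>
      intro k _ hd v _
      have := x6 k
      rw [Polynomial.coeff_eq_zero_of_natDegree_lt (by omega), norm_zero]
      positivity
    | succ d ih =>
      intro k hk1 hd v hv
      have z1 := x1 k
      have z2 := x10 k
      have z3 := x31 k
      have z4 := x7 k
      have z5 := x9 k
      have hxk : x s k < s.Z k := (x4 k k (by omega)).2
      have hvk : v ≤ s.Z k := by omega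
      have hzs := hs.zs k
      have i1 := ih (2 * k + 1) (by omega) (by omega) v (by omega)
      have i2 := ih (2 * k + 2) (by omega) (by omega) v (by omega)
      have j1 : (2 * k + 1 - 1) / 2 = k := by omega
      have j2 : (2 * k + 2 - 1) / 2 = k := by omega
      rw [j1] at i1
      rw [j2] at i2
      obtain ⟨n, hn⟩ : ∃ n, n = 2 * s.g k + v := ⟨_, rfl⟩
      have hle : ∀ l, l ≤ 2 * k + 2 → x s l ≤ n := by
        intro l hl
        rcases Nat.lt_or_ge (2 * k) l with h | h
        · have : l = 2 * k + 1 ∨ l = 2 * k + 2 := by omega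
          rcases this with h | h <;> rw [h] <;> omega
        · have := (x4 k l h).2
          omega
      have hgt : ∀ l, 2 * k + 3 ≤ l → n < x s l := by
        intro l hl
        have := x5 (k + 1) l (by omega)
        have := (x1 (k + 1)).2.2.1
        omega
      have hcv := cv_eq s p k n hle hgt x6
      have en1 : n - x s k = v + x s (2 * k + 2) := by omega
      have en2 : n - x s (2 * k + 1) = v + x s (2 * k + 1) := by omega
      have en3 : n - x s (2 * k + 2) = v + x s k := by omega
      rw [en1, en2, en3] at hcv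
      obtain ⟨j, hj⟩ : ∃ j, j = (k - 1) / 2 := ⟨_, rfl⟩
      obtain ⟨c0, c1, c2⟩ := hW k hk1 v hv
      rw [← hj, ← hn] at c0 c1
      rw [← hj] at c2
      obtain ⟨E, hE⟩ : ∃ E, E = et s k + Lp s j := ⟨_, rfl⟩
      rw [← hE] at c0 c1
      have hn1 : 1 ≤ n := by omega
      have t1 : ‖cv s p n - p.coeff n‖ * 2 ^ E ≤ c := by
        refine le_trans ?_ (H2 n hn1)
        exact mul_le_mul_of_nonneg_left c0 (norm_nonneg _)
      have bnd : ∀ m, m ≤ n → (2 : ℝ) ^ E ≤ W m → ‖p.coeff m‖ * 2 ^ E ≤ M * 2 ^ (k + 9) := by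
        intro m hm hEm
        have h5 : ‖p.coeff m‖ * 2 ^ E ≤ ‖p.coeff m‖ * W m :=
          mul_le_mul_of_nonneg_left hEm (norm_nonneg _)
        have h6 : kap m ≤ k + 1 := hk m (k + 1) (by omega)
        have h7 : M * (2 : ℝ) ^ (kap m + 8) ≤ M * 2 ^ (k + 9) :=
          mul_le_mul_of_nonneg_left (pow_le_pow_right₀ (by norm_num) (by omega)) hM
        exact h5.trans ((H3 m).trans h7)
      have t2 := bnd n le_rfl c1
      have t3 : ‖∑ l ∈ (Finset.range (2 * k + 1)).erase k,
          (a s l : ℂ) * p.coeff (n - x s l)‖ * 2 ^ E ≤ 1 / 32 * (M * 2 ^ (k + 9)) := by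
        have h5 : ∀ l ∈ (Finset.range (2 * k + 1)).erase k,
            ‖(a s l : ℂ) * p.coeff (n - x s l)‖ * 2 ^ E ≤ |a s l| * (M * 2 ^ (k + 9)) := by
          intro l hl
          rw [Finset.mem_erase, Finset.mem_range] at hl
          have h6 := c2 l (by omega) hl.1
          rw [← hn, ← hE] at h6
          have h7 := bnd (n - x s l) (Nat.sub_le _ _) h6
          rw [norm_mul, Complex.norm_real, Real.norm_eq_abs, mul_assoc]
          exact mul_le_mul_of_nonneg_left h7 (abs_nonneg _)
        have h8 : ∑ l ∈ (Finset.range (2 * k + 1)).erase k, |a s l| ≤ 1 / 32 :=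
          (Finset.sum_le_sum_of_subset_of_nonneg (Finset.erase_subset _ _)
            (fun _ _ _ => abs_nonneg _)).trans (x11 k)
        calc _ ≤ (∑ l ∈ (Finset.range (2 * k + 1)).erase k,
              ‖(a s l : ℂ) * p.coeff (n - x s l)‖) * 2 ^ E :=
              mul_le_mul_of_nonneg_right (norm_sum_le _ _) (by positivity)
          _ = ∑ l ∈ (Finset.range (2 * k + 1)).erase k,
              ‖(a s l : ℂ) * p.coeff (n - x s l)‖ * 2 ^ E := by rw [Finset.sum_mul]
          _ ≤ ∑ l ∈ (Finset.range (2 * k + 1)).erase k, |a s l| * (M * 2 ^ (k + 9)) :=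
              Finset.sum_le_sum h5
          _ = (∑ l ∈ (Finset.range (2 * k + 1)).erase k, |a s l|) * (M * 2 ^ (k + 9)) := by
              rw [Finset.sum_mul]
          _ ≤ _ := mul_le_mul_of_nonneg_right h8 (by positivity)
      obtain ⟨S, hS⟩ : ∃ S : ℂ, S = ∑ l ∈ (Finset.range (2 * k + 1)).erase k,
          (a s l : ℂ) * p.coeff (n - x s l) := ⟨_, rfl⟩
      rw [← hS] at hcv t3
      have eP : (a s (2 * k + 2) : ℂ) * p.coeff (v + x s k) =
          (cv s p n - p.coeff n) + p.coeff n - S -
            (a s k : ℂ) * p.coeff (v + x s (2 * k + 2)) -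
            (a s (2 * k + 1) : ℂ) * p.coeff (v + x s (2 * k + 1)) := by
        rw [hcv]; ring
      have n1 := (x9 (2 * k + 2)).1
      have n2 := (x9 (2 * k + 1)).1
      have n3 := (x9 k).1
      have m1 : (1 / 2 : ℝ) ^ al s (2 * k + 2) * ‖p.coeff (v + x s k)‖ ≤
          (‖cv s p n - p.coeff n‖ + ‖p.coeff n‖ + ‖S‖) +
            (1 / 2) ^ al s k * ‖p.coeff (v + x s (2 * k + 2))‖ +
            (1 / 2) ^ al s (2 * k + 1) * ‖p.coeff (v + x s (2 * k + 1))‖ := by
        rw [← n1, ← n2, ← n3, ← Real.norm_eq_abs, ← Real.norm_eq_abs, ← Real.norm_eq_abs,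
          ← Complex.norm_real, ← Complex.norm_real, ← Complex.norm_real, ← norm_mul,
          ← norm_mul, ← norm_mul, eP]
        refine (norm_sub_le _ _).trans ?_
        gcongr
        refine (norm_sub_le _ _).trans ?_
        gcongr
        refine (norm_sub_le _ _).trans ?_
        gcongr
        exact norm_add_le _ _
      have m2 : (‖cv s p n - p.coeff n‖ + ‖p.coeff n‖ + ‖S‖) * 2 ^ E ≤
          (c + M) * 2 ^ (k + 10) := by
        have e7 : (2 : ℝ) ^ (k + 10) = 2 * 2 ^ (k + 9) := by rw [pow_succ]; ring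
        have h9 : (1 : ℝ) ≤ 2 ^ (k + 9) := one_le_pow₀ (by norm_num)
        have h10 : c ≤ c * 2 ^ (k + 9) := le_mul_of_one_le_right hc h9
        have h11 : 0 ≤ M * 2 ^ (k + 9) := by positivity
        have h12 : 0 ≤ c * 2 ^ (k + 9) := by positivity
        rw [e7]
        nlinarith
      rw [z4.1] at m1 i1
      refine fin_est (c + M) _ _ _ _ _ _ _ (Dp s k) _ E (k + 10) hq m1 m2 i2 i1 ?_ ?_ ?_
      · omega
      · -- `Dp j + 3 ≤ Dp k`
        rw [← hj]
        unfold Dp
        have h5 : s.Z (j + 1) ≤ s.Z k := (x2 (j + 1) k (by omega)).1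
        have h6 := hs.zs j
        have h7 := x1 j
        omega
      · -- exponents
        rw [← hj, hE]
        have h5 : al s k ≤ 2 * Ep s j + 1 := by
          have h6 := x7 j
          have h7 : k = 2 * j + 1 ∨ k = 2 * j + 2 := by omega
          rcases h7 with h | h <;> rw [h] <;> omega
        have h6 := x8 k k (by omega)
        unfold Ep at z4 h5
        unfold Dp Lp et
        omega
  intro k hk1 v hv
  exact key (p.natDegree + 1) k hk1 (by omega) v hv

end Pool.Agent.CPX
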