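import Pool.Agent.CPX.Targets
import Pool.Agent.CPW.P_BBB
import Pool.Agent.CPW.P_BBA
import Pool.Agent.CPW.P_BNF
import Pool.Agent.CPW.P_XFA

set_option autoImplicit false

/-!
# CPX, ZON: regularised weights keep the plateaus
-/

namespace Pool.Agent.CPX

open Polynomial Filter Topology
open Pool.Agent.CycP Pool.Agent.CPW

namespace ZON_

theorem run {s : Sq} {k : ℕ} {A : ℝ} {F : ℕ → ℝ}
    (hF : ∀ n, s.Z k ≤ n → n + 1 < s.Z (k + 1) →
      min (A + bb s (n + 1)) (F n + 1 / ((k : ℝ) + 2)) ≤ F (n + 1))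
    {a b B B₀ : ℕ} (ha : s.Z k ≤ a) (hb : b < s.Z (k + 1))
    (hB : ∀ m, a < m → m ≤ b → B ≤ bb s m) (h0 : A + B₀ ≤ F a) :
    ∀ n, a ≤ n → n ≤ b →
      A + min (B : ℝ) (B₀ + ((n : ℝ) - a) / ((k : ℝ) + 2)) ≤ F n := by
  have hk : (0 : ℝ) < (k : ℝ) + 2 := by positivity
  intro n hn
  induction n, hn using Nat.le_induction with
  | base =>
    intro _
    have e := min_le_right (B : ℝ) (B₀ + ((a : ℝ) - a) / ((k : ℝ) + 2))
    rw [sub_self, zero_div, add_zero] at e ⊢
    linarith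
  | succ n hn ih =>
    intro hnb
    have e1 := ih (by omega)
    have e2 := hF n (by omega) (by omega)
    have e3 : (B : ℝ) ≤ bb s (n + 1) := by exact_mod_cast hB (n + 1) (by omega) hnb
    refine le_trans ?_ e2
    refine le_min ?_ ?_
    · have := min_le_left (B : ℝ) (B₀ + (((n + 1 : ℕ) : ℝ) - a) / ((k : ℝ) + 2))
      linarith
    · have e4 : min (B : ℝ) (B₀ + (((n + 1 : ℕ) : ℝ) - a) / ((k : ℝ) + 2)) ≤
          min (B : ℝ) (B₀ + ((n : ℝ) - a) / ((k : ℝ) + 2)) + 1 / ((k : ℝ) + 2) := by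
        rw [← min_add_add_right]
        refine min_le_min ?_ (le_of_eq ?_)
        · have : (0 : ℝ) < 1 / ((k : ℝ) + 2) := by positivity
          linarith
        · push_cast
          field_simp
          ring
      linarith

theorem run' {s : Sq} {k : ℕ} {A : ℝ} {F : ℕ → ℝ}
    (hF : ∀ n, s.Z k ≤ n → n + 1 < s.Z (k + 1) →
      min (A + bb s (n + 1)) (F n + 1 / ((k : ℝ) + 2)) ≤ F (n + 1))
    {a b B B₀ : ℕ} (ha : s.Z k ≤ a) (hb : b < s.Z (k + 1))
    (hB : ∀ m, a < m → m ≤ b → B ≤ bb s m) (h0 : A + B₀ ≤ F a) (n : ℕ) (hn : a ≤ n)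
    (hnb : n ≤ b) (hlen : (k + 2) * B + a ≤ (k + 2) * B₀ + n) : A + B ≤ F n := by
  have hk : (0 : ℝ) < (k : ℝ) + 2 := by positivity
  have e := run hF ha hb hB h0 n hn hnb
  have e2 : (B : ℝ) ≤ B₀ + ((n : ℝ) - a) / ((k : ℝ) + 2) := by
    have h : ((k : ℝ) + 2) * B + a ≤ ((k : ℝ) + 2) * B₀ + n := by exact_mod_cast hlen
    rw [← sub_le_iff_le_add', le_div_iff₀ hk]
    linarith
  rwa [min_eq_left e2] at e

end ZON_

open ZON_ in
/-- ZON. -/
theorem p_ZON : T_ZON := by
  intro s hs2 k A F hA hF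
  have hs := hs2.ok
  obtain ⟨hA1, hB1, ⟨hx0, hx⟩, hD, hE, -, -, -, -, ⟨hV0, hV⟩, -⟩ := p_XFA s hs
  obtain ⟨-, -, b3, b4, b5, b6, -⟩ := p_BBA p_XFA s hs
  obtain ⟨-, -, c3, -, -, c6, c7, c8⟩ := p_BBB p_XFA (p_BNF p_XFA) (p_BBA p_XFA) s hs
  have hgk := hs2.g2 k
  have hT : Tp s k = 4 * s.Z k + 8 * k + 60 := rfl
  have hU : Up s k = s.Z k + 3 := rfl
  have hLk : Lp s k = 3 * s.Z k + 6 * k + 47 := rfl
  obtain ⟨z1, z2, z3, z4, z5⟩ := hA1 k
  have hY1 : s.Z k ≤ s.Y k := by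
    have h1 := hs.y1 k
    have h2 : 1 * s.Z k ≤ (5 * s.Z k + 9 * k + 70) * s.Z k :=
      Nat.mul_le_mul_right _ (by omega)
    omega
  have hzs := hs.zs k
  obtain ⟨C, hC⟩ : ∃ C, C = (2 * k + 4) * (Tp s k + Up s k + Lp s k) := ⟨_, rfl⟩
  rw [← hC] at hgk
  have hC1 : (k + 2) * Tp s k ≤ C := by
    rw [hC]
    exact Nat.mul_le_mul (by omega) (by omega)
  have hC2 : (k + 2) * (Tp s k + Up s k) ≤ C := by
    rw [hC]
    exact Nat.mul_le_mul (by omega) (by omega)
  -- (0)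
  have q0 : ∀ n, s.Z k ≤ n → n < s.Z (k + 1) → A ≤ F n := by
    intro n h1 h2
    have e := run' hF (a := s.Z k) (b := n) (B := 0) (B₀ := 0) le_rfl h2 (fun _ _ _ => by omega)
      (by rw [Nat.cast_zero, add_zero]; exact hA) n h1 le_rfl (by omega)
    rwa [Nat.cast_zero, add_zero] at e
  -- (1)
  have q1 : ∀ t, 1 ≤ t → t ≤ s.Z k → A + Tp s k ≤ F (s.g k - t) := by
    intro t h1 h2
    refine run' hF (a := s.Y k + Tp s k) (b := s.g k - 1) (B := Tp s k) (B₀ := 0) (by omega)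
      (by omega) (fun m h3 h4 => ?_) ?_ _ (by omega) (by omega) (by omega)
    · rw [b3 k m (by omega) (by omega)]
      omega
    · rw [Nat.cast_zero, add_zero]
      exact q0 _ (by omega) (by omega)
  refine ⟨q0, q1, fun hk1 => ?_⟩
  -- the node `k`
  obtain ⟨hxk1, hxk2⟩ := hD k k (by omega)
  obtain ⟨j, hj⟩ : ∃ j, k = 2 * j + 1 ∨ k = 2 * j + 2 := ⟨(k - 1) / 2, by omega⟩
  have hjj : (k - 1) / 2 = j := by omega
  rw [hjj]
  have hEL : et s k + Lp s j ≤ Tp s k + Up s k := by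
    have e1 := (c8 k hk1 0 (Nat.zero_le _)).1
    have e2 := c3 k (2 * s.g k + 0) (by omega)
    rw [hjj] at e1
    omega
  -- (2)
  have q2 : ∀ n, 2 * s.g k - s.Z k ≤ n → n < 2 * s.g k - x s k →
      A + ((et s k + Lp s j : ℕ) : ℝ) ≤ F n := by
    intro n h1 h2
    have e := run' hF (a := s.g k + s.Y k + Tp s k) (b := 2 * s.g k - x s k - 1)
      (B := Tp s k + Up s k) (B₀ := 0) (by omega) (by omega) (fun m h3 h4 => ?_) ?_ n
      (by omega) (by omega) (by omega)
    · have : ((et s k + Lp s j : ℕ) : ℝ) ≤ ((Tp s k + Up s k : ℕ) : ℝ) := by exact_mod_cast hEL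
      linarith
    · rw [b4 k m (by omega) (by omega), b3 k (m - s.g k) (by omega) (by omega)]
      omega
    · rw [Nat.cast_zero, add_zero]
      exact q0 _ (by omega) (by omega)
  -- (3)
  have q3 : ∀ n, 2 * s.g k - x s k ≤ n → n < 2 * s.g k + 2 * s.Z k →
      A + (et s k : ℝ) ≤ F n := by
    intro n h1 h2
    have e0 := q2 (2 * s.g k - x s k - 1) (by omega) (by omega)
    refine run' hF (a := 2 * s.g k - x s k - 1) (b := 2 * s.g k + 2 * s.Z k - 1)
      (B := et s k) (B₀ := et s k) (by omega) (by omega) (fun m h3 h4 => ?_) ?_ n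
      (by omega) (by omega) (by omega)
    · rw [b5 k m (by omega) (by omega)]
      omega
    · have : (et s k : ℝ) ≤ ((et s k + Lp s j : ℕ) : ℝ) := by
        exact_mod_cast Nat.le_add_right _ _
      linarith
  -- plateaus of `bn`
  have q4 : ∀ w0 w1 w : ℕ, w1 < x s k + 2 * s.Z k →
      (∀ m, w0 ≤ m → m ≤ w1 → bn s k m = Lp s j) → w0 ≤ w → w ≤ w1 →
      (k + 2) * Lp s j + w0 ≤ w → A + ((et s k + Lp s j : ℕ) : ℝ) ≤ F (2 * s.g k - x s k + w) := by
    intro w0 w1 w h1 h2 h3 h4 h5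
    have e0 := q3 (2 * s.g k - x s k + w0) (by omega) (by omega)
    have h6 : (k + 2) * (et s k + Lp s j) = (k + 2) * et s k + (k + 2) * Lp s j := by ring
    refine run' hF (a := 2 * s.g k - x s k + w0) (b := 2 * s.g k - x s k + w1)
      (B := et s k + Lp s j) (B₀ := et s k) (by omega) (by omega) (fun m h7 h8 => ?_) e0 _
      (by omega) (by omega) (by omega)
    rw [b5 k m (by omega) (by omega), h2 _ (by omega) (by omega)]
  -- the earlier node `j`
  have hgj := hs2.g2 j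
  have hLj : Lp s j = 3 * s.Z j + 6 * j + 47 := rfl
  obtain ⟨y1, y2, y3, y4, y5⟩ := hA1 j
  obtain ⟨b1, b2⟩ := hx j
  obtain ⟨d1, d2, d3, d4, d5⟩ := hV j
  obtain ⟨f1, f2⟩ := hD j j (by omega)
  have hYj : s.Z j ≤ s.Y j := by
    have h1 := hs.y1 j
    have h2 : 1 * s.Z j ≤ (5 * s.Z j + 9 * j + 70) * s.Z j :=
      Nat.mul_le_mul_right _ (by omega)
    omega
  have hfar : ∀ l, 2 * j + 3 ≤ l → 12 * s.g j ≤ x s l := by
    intro l hl
    have e1 := hE (j + 1) l (by omega)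
    have e2 := (hA1 (j + 1)).2.2.1
    rw [hs.zs] at e2
    omega
  obtain ⟨D, hDD⟩ : ∃ D, D = (2 * j + 4) * (Tp s j + Up s j + Lp s j) := ⟨_, rfl⟩
  rw [← hDD] at hgj
  have hD1 : (k + 2) * Lp s j ≤ D := by
    rw [hDD]
    exact Nat.mul_le_mul (by omega) (by omega)
  have hZZ : s.Z j ≤ s.Z k := (hB1 j k (by omega)).1
  intro v hv
  rcases hj with rfl | rfl
  · -- `k = 2 j + 1`
    rw [d1] at hv
    rw [b1] at q2 q4 hxk2
    have q5 : ∀ w, s.g j - s.Z j ≤ w → w ≤ s.g j + s.Z j →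
        A + ((et s (2 * j + 1) + Lp s j : ℕ) : ℝ) ≤ F (2 * s.g (2 * j + 1) - s.g j + w) := by
      intro w h1 h2
      refine q4 (s.Y j + Lp s j) (s.g j + s.Z j) w (by omega) (fun m h3 h4 => ?_) (by omega) h2
        (by omega)
      rw [BNF_.bn_odd, if_pos h4]
      omega
    refine ⟨?_, fun l hl hlk => ?_⟩
    · have e := q5 (s.g j + v) (by omega) (by omega)
      have e2 : 2 * s.g (2 * j + 1) - s.g j + (s.g j + v) = 2 * s.g (2 * j + 1) + v := by omega
      rwa [e2] at e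
    · obtain ⟨u1, u2⟩ := hD (2 * j + 1) l hl
      by_cases hxl : x s l ≤ s.g j + v
      · have hl2 : l ≤ 2 * j := by
          by_contra hcon
          rcases Nat.lt_or_ge l (2 * j + 3) with h | h
          · have : l = 2 * j + 2 := by omega
            subst this
            omega
          · have := hfar l h
            omega
        obtain ⟨g1, g2⟩ := hD j l hl2
        have e := q5 (s.g j + v - x s l) (by omega) (by omega)
        have e2 : 2 * s.g (2 * j + 1) - s.g j + (s.g j + v - x s l) =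
            2 * s.g (2 * j + 1) + v - x s l := by omega
        rwa [e2] at e
      · exact q2 _ (by omega) (by omega)
  · -- `k = 2 j + 2`
    rw [d2] at hv
    rw [b2] at q2 q4 hxk2
    have q5 : ∀ w, s.g j - s.Z j ≤ w → w < s.g j →
        A + ((et s (2 * j + 2) + Lp s j : ℕ) : ℝ) ≤
          F (2 * s.g (2 * j + 2) - (2 * s.g j - x s j) + w) := by
      intro w h1 h2
      refine q4 (s.Y j + Lp s j) (s.g j - 1) w (by omega) (fun m h3 h4 => ?_) (by omega)
        (by omega) (by omega)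
      rw [BNF_.bn_even, if_pos (by omega)]
      omega
    have q6 : ∀ w, 2 * s.g j - 2 * s.Z j ≤ w → w < 2 * s.g j →
        A + ((et s (2 * j + 2) + Lp s j : ℕ) : ℝ) ≤
          F (2 * s.g (2 * j + 2) - (2 * s.g j - x s j) + w) := by
      intro w h1 h2
      refine q4 (s.g j + s.Y j + Lp s j) (2 * s.g j - 1) w (by omega) (fun m h3 h4 => ?_)
        (by omega) (by omega) (by omega)
      rw [BNF_.bn_even, if_neg (by omega), if_pos (by omega)]
      omega
    refine ⟨?_, fun l hl hlk => ?_⟩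
    · have e := q6 (2 * s.g j - x s j + v) (by omega) (by omega)
      have e2 : 2 * s.g (2 * j + 2) - (2 * s.g j - x s j) + (2 * s.g j - x s j + v) =
          2 * s.g (2 * j + 2) + v := by omega
      rwa [e2] at e
    · obtain ⟨u1, u2⟩ := hD (2 * j + 2) l hl
      by_cases hxl : x s l ≤ 2 * s.g j - x s j + v
      · have e2 : 2 * s.g (2 * j + 2) - (2 * s.g j - x s j) + (2 * s.g j - x s j + v - x s l) =
            2 * s.g (2 * j + 2) + v - x s l := by omega
        rw [← e2]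
        rcases Nat.lt_or_ge l (2 * j + 1) with h | h
        · obtain ⟨g1, g2⟩ := hD j l (by omega)
          exact q6 _ (by omega) (by omega)
        · rcases Nat.lt_or_ge l (2 * j + 3) with h' | h'
          · have hl1 : l = 2 * j + 1 := by omega
            subst hl1
            rw [b1]
            exact q5 _ (by omega) (by omega)
          · have := hfar l h'
            omega
      · exact q2 _ (by omega) (by omega)

end Pool.Agent.CPX
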