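import Pool.Agent.CPG.Asm
import Pool.Agent.CPX.P_ZON
import Pool.Agent.CPX.P_HAT
import Pool.Agent.CPX.P_TT2
import Pool.Agent.CPX.P_RW2
import Pool.Agent.CPX.P_CO2
import Pool.Agent.CPX.P_SE2
import Pool.Agent.CPX.P_SLO
import Pool.Agent.CPX.P_CM2

set_option autoImplicit false

/-!
# CPX: assembly
-/

namespace Pool.Agent.CPX

open Polynomial Filter Topology
open Pool.Agent.CycP Pool.Agent.CPW Pool.Agent.CPG

/-- the assertions for one weight -/
def Bad (b : ℕ → ℝ) : Prop :=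
  ∃ (A B : AnSpace 1 (Metric.ball 0 1) L2) (φ : B.maxDomain → A.maxDomain) (T : L2 →L[ℂ] L2),
    Hardy (fun _ => 1) A ∧ Hardy b B ∧
    A.maxDomain = Metric.ball 0 1 ∧ B.maxDomain = Metric.ball 0 1 ∧
    (∀ g, B.MultCyclic g → B.Cyclic g) ∧ (∀ w, ‖(φ w : Fin 1 → ℂ)‖ ≤ 1 / 2) ∧
    (∀ (f : L2) (w : B.maxDomain), B.ext (T f) w = A.ext f (φ w)) ∧
    A.Cyclic (A.poly (1 - MvPolynomial.C (1 / 2) * MvPolynomial.X 0)) ∧
    ¬ B.Cyclic (T (A.poly (1 - MvPolynomial.C (1 / 2) * MvPolynomial.X 0))) ∧ ¬ B.CP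

theorem HAT : T_HAT := p_HAT p_ZON

theorem CO2 : T_CO2 := p_CO2 HAT p_TT2 (p_RW2 p_TT2)

/-- the common part -/
theorem core (b : ℕ → ℝ) (s : Sq) (hs : Ok s) (C : ℝ) (hb1 : ∀ n, 1 ≤ b n)
    (hb2 : ∀ n, b (n + 1) ≤ 2 * b n)
    (hM : ∀ m, Summable (fun n => ‖PowerSeries.coeff n (ph s ^ m)‖ * b n) ∧
      ∑' n, ‖PowerSeries.coeff n (ph s ^ m)‖ * b n ≤ C * (1 / 4) ^ m)
    (hN : ∀ p : ℂ[X], ∃ n,
      1 / 1000 < ‖PowerSeries.coeff n (1 - (1 - ph s) * (p : PowerSeries ℂ))‖ * b n)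
    (hin : {n | b n ≤ 2}.Infinite) : Bad b := by
  obtain ⟨hP0, hP⟩ := PHC s hs
  have hP1 : Summable (fun n => ‖PowerSeries.coeff n (ph s)‖) ∧
      ∑' n, ‖PowerSeries.coeff n (ph s)‖ ≤ 1 / 4 := by
    obtain ⟨u1, u2⟩ := hP 1
    rw [pow_one] at u1 u2
    rw [pow_one] at u2
    have hle : ∀ n, ‖PowerSeries.coeff n (ph s)‖ ≤ ‖PowerSeries.coeff n (ph s)‖ * 2 ^ bb s n :=
      fun n => le_mul_of_one_le_right (norm_nonneg _) (one_le_pow₀ (by norm_num))
    have h1 : Summable (fun n => ‖PowerSeries.coeff n (ph s)‖) :=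
      Summable.of_nonneg_of_le (fun n => norm_nonneg _) hle u1
    exact ⟨h1, (h1.tsum_le_tsum hle u1).trans u2⟩
  obtain ⟨A, hA⟩ := p_SPC (fun _ => 1) (fun _ => le_rfl) (fun _ => by norm_num)
  obtain ⟨B, hB⟩ := p_SPC b hb1 hb2
  have hAm : A.maxDomain = Metric.ball 0 1 := p_MXE _ A (fun _ => le_rfl) hA (by
    have : {n : ℕ | (1 : ℝ) ≤ 2} = Set.univ := by
      ext n
      simp
    rw [this]
    exact Set.infinite_univ)
  have hBm : B.maxDomain = Metric.ball 0 1 := p_MXE _ B hb1 hB hin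
  obtain ⟨T, hT⟩ := p_OPC b (ph s) C hb1 hM
  obtain ⟨φ, hφ1, hφ⟩ := p_CM2 b (ph s) C A B T hb1 hA hB hT hM hP1 hBm hAm
  obtain ⟨hc1, hc2⟩ := p_CYC b A B hb1 hA hB
  have hn := p_NCY b (ph s) A B T hb1 hA hB hT hN
  refine ⟨A, B, φ, T, hardy_of hA, hardy_of hB, hAm, hBm,
    fun g hg => (graded_of hB).cyclic_of_multCyclic hg, hφ1, hφ, hc1, hn, fun hcp => hn ?_⟩
  refine hcp 1 _ L2 _ _ inferInstance A φ (B.poly 1) T hc2 (fun f w => ?_) _ hc1
  rw [hφ f w]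
  have hw1 : B.ext (B.poly 1) w = 1 := by
    have hw : (w : Fin 1 → ℂ) ∈ B.maxDomain := w.2
    unfold AnSpace.ext
    rw [dif_pos hw]
    have := hw.choose_spec 1
    rw [this, map_one]
  rw [hw1, one_mul]

/-- the deterministic part for the dense set -/
theorem det (b : ℕ → ℝ) (s : Sq) (hs : Ok2 s) (C : ℝ) (hb1 : ∀ n, 1 ≤ b n)
    (hb2 : ∀ n, b (n + 1) ≤ 2 * b n) (hlo : ∀ n, (2 : ℝ) ^ (be s n) ≤ b n)
    (hup : ∀ n, b n ≤ C * 2 ^ bb s n) (hin : {n | b n ≤ 2}.Infinite) : Bad b := by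
  obtain ⟨hP0, hP⟩ := PHC s hs.ok
  have hC : 0 ≤ C := by
    have h0 := hup 0
    have h1 := hb1 0
    by_contra hneg
    have : C * (2 : ℝ) ^ bb s 0 ≤ 0 :=
      mul_nonpos_of_nonpos_of_nonneg (not_le.1 hneg).le (by positivity)
    linarith
  have hM : ∀ m, Summable (fun n => ‖PowerSeries.coeff n (ph s ^ m)‖ * b n) ∧
      ∑' n, ‖PowerSeries.coeff n (ph s ^ m)‖ * b n ≤ C * (1 / 4) ^ m := by
    intro m
    obtain ⟨u1, u2⟩ := hP m
    have hle : ∀ n, ‖PowerSeries.coeff n (ph s ^ m)‖ * b n ≤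
        C * (‖PowerSeries.coeff n (ph s ^ m)‖ * 2 ^ bb s n) := by
      intro n
      have := mul_le_mul_of_nonneg_left (hup n) (norm_nonneg (PowerSeries.coeff n (ph s ^ m)))
      linarith
    have h1 : Summable (fun n => ‖PowerSeries.coeff n (ph s ^ m)‖ * b n) :=
      Summable.of_nonneg_of_le
        (fun n => mul_nonneg (norm_nonneg _) (zero_le_one.trans (hb1 n))) hle (u1.mul_left C)
    refine ⟨h1, (h1.tsum_le_tsum hle (u1.mul_left C)).trans ?_⟩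
    rw [tsum_mul_left]
    exact mul_le_mul_of_nonneg_left u2 hC
  refine core b s hs.ok C hb1 hb2 hM (fun p => ?_) hin
  obtain ⟨n, hn⟩ := CO2 s hs p
  exact ⟨n, hn.trans_le (mul_le_mul_of_nonneg_left (hlo n) (norm_nonneg _))⟩

/-- generic weights -/
theorem gen2 (h : ℕ → ℝ) (h1 : ∀ n, 1 ≤ h n) (h2 : Tendsto h atTop atTop)
    (h3 : Tendsto (fun n : ℕ => Real.log (h n) / n) atTop (𝓝 0)) :
    ∀ᶠ b in residual (Wt h), Bad b.1 := by
  obtain ⟨N, hN⟩ := p_FRN h h1 h3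
  have e1 : ∀ᶠ b in residual (Wt h), ∀ L, OkL N L → ∃ Y g, Cnt N b.1 L Y g := by
    rw [eventually_countable_forall]
    intro L
    rw [eventually_imp_distrib_left]
    intro hL
    exact residual_of_dense_open (p_OPN h N L)
      (p_DNS p_PRE (p_PAT p_EXT p_CNG) h h1 h2 N L hL)
  filter_upwards [e1] with b hC
  obtain ⟨s, hs, hNs, hc⟩ := p_SEL p_CNG N b.1 hC
  have hb0 : ∀ n, 1 ≤ b.1 n ∧ b.1 n ≤ h n := fun n => ⟨(b.2 n).1, (b.2 n).2.1⟩
  obtain ⟨hlo, hin, H, hH, hup⟩ := p_LOW h b.1 N s hN hs hb0 hNs hc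
  have hM := p_MAS XFA p_NNC PKF PHC s hs h b.1 N H hH hb0 hN hup
  refine core b.1 s hs (H + 1) (fun n => (b.2 n).1) (fun n => (b.2 n).2.2) hM (fun p => ?_) hin
  obtain ⟨n, hn⟩ := CON s hs p
  exact ⟨n, hn.trans_le (mul_le_mul_of_nonneg_left (hlo n) (norm_nonneg _))⟩

theorem dense2 (h : ℕ → ℝ) (h1 : ∀ n, 1 ≤ h n) (h2 : Tendsto h atTop atTop) :
    Dense {b : Wt h | (∀ ρ : ℝ, 1 < ρ → ∀ᶠ n in atTop, b.1 (n + 1) ≤ ρ * b.1 n) ∧ Bad b.1} := by
  rw [dense_iff_inter_open]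
  intro U hU hne
  obtain ⟨b₀, hb₀⟩ := hne
  obtain ⟨J, hJ⟩ := p_PRE h U hU b₀ hb₀
  obtain ⟨s, hs, hJY, hY⟩ := p_SE2 h h2 J
  obtain ⟨hX1, -, -⟩ := XFA s hs.ok
  obtain ⟨-, -, -, -, -, -, hB7⟩ := BBA s hs.ok
  obtain ⟨w0, w1, w2, w3, w4, -⟩ := BBB s hs.ok
  obtain ⟨v1, v2, v3, -⟩ := HAT s hs
  -- the exponent is `0` up to `Y 0`
  have hbb0 : ∀ n, n < s.Y 0 → bb s n = 0 := by
    intro n hn
    rcases lt_or_ge n (s.Z 0) with h0 | h0
    · exact hB7 n h0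
    · exact w4 0 n h0 hn
  have hbe0 : ∀ n, n < s.Y 0 → be s n = 0 := by
    intro n hn
    have h3 := v2 n
    rw [hbb0 n hn, Nat.cast_zero] at h3
    exact le_antisymm h3 (v1 n)
  have hbh : ∀ n, (2 : ℝ) ^ bb s n ≤ h n := by
    intro n
    rcases lt_or_ge n (s.Z 0) with h0 | h0
    · rw [hB7 n h0, pow_zero]
      exact h1 n
    · obtain ⟨K, hK1, hK2⟩ : ∃ K, s.Z K ≤ n ∧ n < s.Z (K + 1) := by
        have hex : ∃ K, n < s.Z K := ⟨n + 1, lt_of_lt_of_le (Nat.lt_succ_self n) (hX1 (n + 1)).2.1⟩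
        classical
        have hf := Nat.find_spec hex
        have hne : Nat.find hex ≠ 0 := by
          intro h2
          rw [h2] at hf
          omega
        obtain ⟨K, hK⟩ := Nat.exists_eq_succ_of_ne_zero hne
        refine ⟨K, ?_, ?_⟩
        · have := Nat.find_min hex (m := K) (by omega)
          omega
        · rw [hK] at hf
          exact hf
      rcases lt_or_ge n (s.Y K) with h2 | h2
      · rw [w4 K n hK1 h2, pow_zero]
        exact h1 n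
      · exact (pow_le_pow_right₀ (by norm_num) (w2 K n hK2)).trans (hY K n h2)
  have he1 : ∀ n, (1 : ℝ) ≤ (2 : ℝ) ^ (be s n) := fun n =>
    Real.one_le_rpow (by norm_num) (v1 n)
  have he2 : ∀ n, (2 : ℝ) ^ (be s n) ≤ (2 : ℝ) ^ bb s n := by
    intro n
    rw [← Real.rpow_natCast]
    exact Real.rpow_le_rpow_of_exponent_le (by norm_num) (v2 n)
  have he3 : ∀ n, (2 : ℝ) ^ (be s (n + 1)) ≤ 2 * (2 : ℝ) ^ (be s n) := by
    intro n
    have h3 : be s (n + 1) ≤ be s n + 1 := by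
      refine (v3 n).trans (add_le_add le_rfl ?_)
      rw [div_le_one (by positivity)]
      have : (0 : ℝ) ≤ (zi s (n + 1) : ℝ) := Nat.cast_nonneg _
      linarith
    calc (2 : ℝ) ^ (be s (n + 1)) ≤ (2 : ℝ) ^ (be s n + 1) :=
          Real.rpow_le_rpow_of_exponent_le (by norm_num) h3
      _ = 2 * (2 : ℝ) ^ (be s n) := by
          rw [Real.rpow_add (by norm_num), Real.rpow_one, mul_comm]
  -- the weight
  let b : ℕ → ℝ := fun n => if n < J then b₀.1 n else (2 : ℝ) ^ (be s n)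
  have hb_lt : ∀ n, n < J → b n = b₀.1 n := fun n hn => by simp [b, hn]
  have hb_ge : ∀ n, J ≤ n → b n = (2 : ℝ) ^ (be s n) := fun n hn => by simp [b, not_lt.2 hn]
  have hmem : b ∈ Wt h := by
    intro n
    have hb := b₀.2 n
    rcases lt_or_ge n J with hn | hn
    · rw [hb_lt n hn]
      refine ⟨hb.1, hb.2.1, ?_⟩
      rcases lt_or_ge (n + 1) J with hn1 | hn1
      · rw [hb_lt _ hn1]
        exact hb.2.2
      · rw [hb_ge _ hn1, hbe0 (n + 1) (by omega), Real.rpow_zero]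
        linarith [hb.1]
    · rw [hb_ge n hn, hb_ge (n + 1) (by omega)]
      exact ⟨he1 n, (he2 n).trans (hbh n), he3 n⟩
  refine ⟨⟨b, hmem⟩, hJ _ fun n hn => hb_lt n hn, ?_, ?_⟩
  · intro ρ hρ
    filter_upwards [p_SLO s hs.ok ρ hρ, eventually_ge_atTop J] with n e1 e2
    rw [hb_ge n e2, hb_ge (n + 1) (by omega)]
    exact e1
  · change Bad b
    refine det b s hs (1 + ∑ i ∈ Finset.range J, h i) (fun n => (hmem n).1)
      (fun n => (hmem n).2.2) ?_ ?_ ?_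
    · intro n
      rcases lt_or_ge n J with hn | hn
      · rw [hbe0 n (by omega), Real.rpow_zero]
        exact (hmem n).1
      · rw [hb_ge n hn]
    · intro n
      have hS : 0 ≤ ∑ i ∈ Finset.range J, h i :=
        Finset.sum_nonneg fun i _ => zero_le_one.trans (h1 i)
      have hp : (1 : ℝ) ≤ 2 ^ bb s n := one_le_pow₀ (by norm_num)
      rcases lt_or_ge n J with hn | hn
      · have h3 : h n ≤ ∑ i ∈ Finset.range J, h i :=
          Finset.single_le_sum (f := h) (fun i _ => zero_le_one.trans (h1 i))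
            (Finset.mem_range.2 hn)
        calc b n ≤ h n := (hmem n).2.1
          _ ≤ (1 + ∑ i ∈ Finset.range J, h i) * 1 := by linarith
          _ ≤ (1 + ∑ i ∈ Finset.range J, h i) * 2 ^ bb s n :=
              mul_le_mul_of_nonneg_left hp (by linarith)
      · rw [hb_ge n hn]
        refine (he2 n).trans ?_
        exact le_mul_of_one_le_left (by positivity) (by linarith)
    · refine (w3.sdiff (Set.finite_lt_nat J)).mono fun n hn => ?_
      have hn1 : bb s n = 0 := hn.1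
      have hn2 : J ≤ n := not_lt.1 hn.2
      change b n ≤ 2
      rw [hb_ge n hn2]
      have h3 := v2 n
      rw [hn1, Nat.cast_zero] at h3
      rw [le_antisymm h3 (v1 n), Real.rpow_zero]
      norm_num

end Pool.Agent.CPX
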