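import Pool.Agent.CPG.Targets

set_option autoImplicit false

/-!
# CPX: weights with `limsup b (n+1) / b n ≤ 1` (MP_01c4da_an, helper25)

THEOREM. `h n ≥ 1`, `h n → ∞`. The weights `b` with `1 ≤ b n ≤ h n`, `b (n+1) ≤ 2 b n`,
`limsup b (n+1) / b n ≤ 1`, for which `H²(b)` does not have (CP), are dense in `Wt h`.

IDEA. `bb` is the exponent of the weight of project CPW. If the intervals are long (`Ok2`), it can
be replaced by the largest function `be ≤ bb` with `be (n+1) ≤ be n + 1 / (K+1)` in zone `K`. The upper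
bounds for the powers of `φ` remain true (`be ≤ bb`). The proof that `1 - φ` is not cyclic uses the
weight only at the end of long plateaus of `bb`, where `be` has the same values.

CONVENTIONS. Everything of CPW is proved: `Pool/Agent/CPW/Asm.lean` contains the theorems
`Pool.Agent.CPW.XFA BNF BBA BBB COE TTT RWW CON PKF BNR ... PHC` (of `T_XFA`, ...), which may be
used. Each target `T_X` is to be proved as `theorem p_X (the targets named in its docstring) : T_X`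
in the NEW file `Pool/Agent/CPX/P_X.lean`, namespace `Pool.Agent.CPX`, helper lemmas in `X_`.
-/

namespace Pool.Agent.CPX

open Polynomial Filter Topology
open Pool.Agent.CycP Pool.Agent.CPW

/-- the growth conditions with long gaps -/
structure Ok2 (s : Sq) : Prop where
  ok : Ok s
  g2 : ∀ K, s.Y K + Tp s K + Lp s K + 2 * s.Z K +
    (2 * K + 4) * (Tp s K + Up s K + Lp s K) ≤ s.g K

/-- the zone of `n` -/
def zi (s : Sq) (n : ℕ) : ℕ := Nat.findGreatest (fun K => s.Z K ≤ n) n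

/-- the new exponent -/
noncomputable def be (s : Sq) : ℕ → ℝ
  | 0 => 0
  | n + 1 => min (bb s (n + 1) : ℝ) (be s n + 1 / ((zi s (n + 1) : ℝ) + 1))

/-- **ZON** (60-80 min; uses the CPW facts XFA, BBA, BBB). PROOF. `Z, Y, g, T, U` for `s.Z k, ...`,
`Tp s k`, `Up s k`; `j = (k-1)/2`, `L = Lp s j`, `x = x s k`. (0) `F ≥ A` on the zone: induction.
(R) If `bb ≥ B` on `[a, b]` (inside the zone) and `F a ≥ A + B₀` then, by induction,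
`F n ≥ A + min (B, B₀ + (n - a) / (k + 2))` for `a ≤ n ≤ b`; so `F n ≥ A + B` if
`n - a ≥ (k + 2) (B - B₀)`. (1) `bb = T` on `[Y + T, g)` (BBA (3)): (R) with `B₀ = 0`, as
`g - Z - (Y + T) ≥ (k + 2) T` by `g2`. (2) `bb = T + U` on `[g + Y + T, 2 g - x)` (BBA (4), (3),
`Y ≥ Z`): (R) with `B₀ = 0` gives `F ≥ A + T + U ≥ A + et k + L` on `[2 g - Z, 2 g - x)`
(`x < Z`, `et k + L ≤ T + U`: see BBB). (3) On `[2 g - x, 2 g + 2 Z)`: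
`bb = et k + bn k (n - (2 g - x)) ≥ et k` (BBA (5)), so `F ≥ A + et k` there (induction, starting with (2) at `2 g - x - 1`).
(4) `k = 2 j + 1`: `x = g j`, `V k = Z j`, `bn k w = L` for `Y j + L ≤ w ≤ g j + Z j`; (R) with
`B₀ = et k`, `B = et k + L`, `a = 2 g - x + Y j + L` gives `F (2 g - x + w) ≥ A + et k + L` for
`g j - Z j ≤ w ≤ g j + Z j` (`g2` for `j`: `g j - Z j - Y j - L ≥ (2 j + 4) L`). Now
`2 g + v = 2 g - x + (x + v)`; and `2 g + v - x s l` is `2 g - x + (x + v - x s l)` if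
`x s l ≤ x + v` (then `l ≤ 2 j`, `x s l < Z j`), otherwise it is in `[2 g - Z, 2 g - x)` (`l ≤ 2 k`,
`x s l < Z`): (2). (5) `k = 2 j + 2`: `x = 2 g j - x s j`, `V k = V j < x s j < Z j`, `bn k w = L`
on `[Y j + L, g j)` and on `[g j + Y j + L, 2 g j)`; as before `F (2 g - x + w) ≥ A + et k + L` for
`g j - Z j ≤ w < g j` and for `2 g j - 2 Z j ≤ w < 2 g j`. `w = x + v < 2 g j`;
`w = x + v - x s l`: `l = 2 j + 1` gives `g j - x s j + v`, in `[g j - Z j, g j)`; `l ≤ 2 j` gives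
`w ≥ 2 g j - 2 Z j`; for `l ≥ 2 j + 3` `x s l > x + v`: (2). -/
def T_ZON : Prop := ∀ s : Sq, Ok2 s → ∀ (k : ℕ) (A : ℝ) (F : ℕ → ℝ), A ≤ F (s.Z k) →
  (∀ n, s.Z k ≤ n → n + 1 < s.Z (k + 1) →
    min (A + bb s (n + 1)) (F n + 1 / ((k : ℝ) + 2)) ≤ F (n + 1)) →
  (∀ n, s.Z k ≤ n → n < s.Z (k + 1) → A ≤ F n) ∧
  (∀ t, 1 ≤ t → t ≤ s.Z k → A + Tp s k ≤ F (s.g k - t)) ∧
  (1 ≤ k → ∀ v ≤ V s k,
    A + ((et s k + Lp s ((k - 1) / 2) : ℕ) : ℝ) ≤ F (2 * s.g k + v) ∧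
    ∀ l, l ≤ 2 * k → l ≠ k →
      A + ((et s k + Lp s ((k - 1) / 2) : ℕ) : ℝ) ≤ F (2 * s.g k + v - x s l))

/-- **HAT** (40 min; from ZON and the CPW facts XFA, BBA, BBB). PROOF. First three lines: induction.
`zi s n = k` for `Z k ≤ n < Z (k+1)`. ZON with `F = be s`, `A = 0` (`1 / (k+1) ≥ 1 / (k+2)`) gives
line 5 and `be (g K - 1) ≥ Tp K ≥ Up K`; with `bb (N + g K) = bb N + Up K ≥ Up K` for `N ≤ Z K`
(BBB) line 4 follows by induction on `N`. Last two lines: ZON with `F n = be s (n + g (k+1))`,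
`A = Up (k+1)`: line 4 gives `A ≤ F (Z k)`, and for `n + 1 < Z (k+1)` the number
`n + 1 + g (k+1)` is in the zone `k + 1`, `bb (n + 1 + g (k+1)) = bb (n+1) + Up (k+1)`. -/
def T_HAT : Prop := ∀ s : Sq, Ok2 s →
  (∀ n, 0 ≤ be s n) ∧ (∀ n, be s n ≤ bb s n) ∧
  (∀ n, be s (n + 1) ≤ be s n + 1 / ((zi s (n + 1) : ℝ) + 1)) ∧
  (∀ K N, N ≤ s.Z K → (Up s K : ℝ) ≤ be s (N + s.g K)) ∧
  (∀ k v, 1 ≤ k → v ≤ V s k → ((et s k + Lp s ((k - 1) / 2) : ℕ) : ℝ) ≤ be s (2 * s.g k + v)) ∧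
  (∀ k t, 1 ≤ t → t ≤ s.Z k →
    ((Up s (k + 1) + Tp s k : ℕ) : ℝ) ≤ be s (s.g k - t + s.g (k + 1))) ∧
  (∀ k v, 1 ≤ k → v ≤ V s k →
    ((Up s (k + 1) + (et s k + Lp s ((k - 1) / 2)) : ℕ) : ℝ) ≤
      be s (2 * s.g k + v + s.g (k + 1)) ∧
    ∀ l, l ≤ 2 * k → l ≠ k → ((Up s (k + 1) + (et s k + Lp s ((k - 1) / 2)) : ℕ) : ℝ) ≤
      be s (2 * s.g k + v - x s l + s.g (k + 1)))

/-- **TT2** (25 min). EDIT of `CPW/P_TTT.lean`: the weight `2 ^ bb s n` is replaced by `w n` in the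
second and by `W n` in the third hypothesis; the facts on `bb` (last item of BBB) are the new
hypothesis. -/
def T_TT2 : Prop := ∀ s : Sq, Ok s → ∀ (w W : ℕ → ℝ),
  (∀ k, 1 ≤ k → ∀ v ≤ V s k, (2 : ℝ) ^ (et s k + Lp s ((k - 1) / 2)) ≤ w (2 * s.g k + v) ∧
    (2 : ℝ) ^ (et s k + Lp s ((k - 1) / 2)) ≤ W (2 * s.g k + v) ∧
    ∀ l, l ≤ 2 * k → l ≠ k →
      (2 : ℝ) ^ (et s k + Lp s ((k - 1) / 2)) ≤ W (2 * s.g k + v - x s l)) →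
  ∀ (kap : ℕ → ℕ) (p : ℂ[X]) (c M : ℝ), 0 ≤ c → 0 ≤ M →
  (∀ n K, n ≤ s.Z K → kap n ≤ K) →
  (∀ n, 1 ≤ n → ‖cv s p n - p.coeff n‖ * w n ≤ c) →
  (∀ n, ‖p.coeff n‖ * W n ≤ M * 2 ^ (kap n + 8)) →
  ∀ k, 1 ≤ k → ∀ v ≤ V s k,
    ‖p.coeff (v + x s k)‖ ≤ (1 / 2) ^ al s k * (c + M) * (1 / 2) ^ Dp s ((k - 1) / 2)

/-- **RW2** (30 min; from TT2). EDIT of `CPW/P_RWW.lean`: `2 ^ bb s n` is replaced by `w n` in the
hypothesis on the rows and by `W n` elsewhere. The fact `bb (g K - t) = Tp K` is the hypothesis on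
`W (g K - t)`, `bb (N + g K) = bb N + Up K` is the hypothesis `2 ^ Up K * W N ≤ w (N + g K)`, and
`bb N ≤ Z K` is `W N ≤ 2 ^ Z K`. -/
def T_RW2 : Prop := ∀ s : Sq, Ok s → ∀ (w W : ℕ → ℝ),
  (∀ k, 1 ≤ k → ∀ v ≤ V s k, (2 : ℝ) ^ (et s k + Lp s ((k - 1) / 2)) ≤ w (2 * s.g k + v) ∧
    (2 : ℝ) ^ (et s k + Lp s ((k - 1) / 2)) ≤ W (2 * s.g k + v) ∧
    ∀ l, l ≤ 2 * k → l ≠ k →
      (2 : ℝ) ^ (et s k + Lp s ((k - 1) / 2)) ≤ W (2 * s.g k + v - x s l)) →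
  (∀ K t, 1 ≤ t → t ≤ s.Z K → (2 : ℝ) ^ Tp s K ≤ W (s.g K - t)) →
  ∀ (kap : ℕ → ℕ) (p : ℂ[X]) (c M : ℝ), 0 ≤ c → 0 ≤ M →
  (∀ n K, n ≤ s.Z K → kap n ≤ K) →
  (∀ n, 1 ≤ n → ‖cv s p n - p.coeff n‖ * w n ≤ c) →
  (∀ n, ‖p.coeff n‖ * W n ≤ M * 2 ^ (kap n + 8)) →
  ∀ K N, N ≤ s.Z K → 0 ≤ W N → W N ≤ 2 ^ s.Z K → (2 : ℝ) ^ Up s K * W N ≤ w (N + s.g K) →
    ‖p.coeff N‖ * W N ≤ (c + M / 2) * 2 ^ (K + 8)

/-- **CO2** (45 min; from HAT, TT2, RW2 and the CPW facts XFA, BBA, BBB, COE). EDIT of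
`CPW/P_CON.lean`. `kap n` is the least `K` with `n ≤ Z K`, `w n = 2 ^ be s n`,
`W n = w (n + g (kap n)) / 2 ^ Up (kap n)`. `W n ≤ 2 ^ bb n` (`be ≤ bb`,
`bb (n + g K) = bb n + Up K` for `n ≤ Z K`), `bb n ≤ n`. The hypotheses of TT2 and RW2 are the last
four lines of HAT, since `kap n = k + 1` for `n = g k - t` and for `n = 2 g k + v`, `2 g k + v - x l`
(these numbers are greater than `Z k` and at most `Z (k+1) = 3 g k`). Suppose all the numbers are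
at most `c = 1/1000`; `M` the maximum over the support of `p` of `‖p_n‖ W n / 2 ^ (kap n + 8)`, attained
at `N`: RW2 with `K = kap N` gives `M ≤ c + M/2`, `M ≤ 2 c`, `‖p_0‖ W 0 ≤ 512 c`, `W 0 ≥ 1`, and
`‖1 - p_0‖ ≤ c` (`be 0 = 0`). -/
def T_CO2 : Prop := ∀ s : Sq, Ok2 s → ∀ p : ℂ[X],
  ∃ n, 1 / 1000 < ‖PowerSeries.coeff n (1 - (1 - ph s) * (p : PowerSeries ℂ))‖ *
    (2 : ℝ) ^ (be s n)

/-- **SE2** (25 min). EDIT of `CPW/P_SEQ.lean`: `Y 0 > J` and longer gaps. -/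
def T_SE2 : Prop := ∀ h : ℕ → ℝ, Tendsto h atTop atTop → ∀ J : ℕ,
  ∃ s : Sq, Ok2 s ∧ J < s.Y 0 ∧ ∀ K n, s.Y K ≤ n → (2 : ℝ) ^ (Tp s K + Up s K) ≤ h n

/-- **SLO** (20 min). PROOF. `2 ^ (1 / (K+1)) ≤ ρ` for some `K`. For `n ≥ Z K` (`≥ K`, from the
CPW fact XFA) `zi s (n+1) ≥ K` (`Nat.le_findGreatest`), and
`be (n+1) ≤ be n + 1 / (zi s (n+1) + 1)`. -/
def T_SLO : Prop := ∀ s : Sq, Ok s → ∀ ρ : ℝ, 1 < ρ →
  ∀ᶠ n in atTop, (2 : ℝ) ^ (be s (n + 1)) ≤ ρ * (2 : ℝ) ^ (be s n)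

end Pool.Agent.CPX
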